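import Mathlib
import Pool.Agent.Q175.SemiRec

/-!
# A semifilter which is not strongly homogeneous

The semifilter is generated by a set `P` of subsets of the natural numbers which is built, together
with a set `N` of forbidden sets, by a recursion of length continuum (see
`Pool.Agent.Q175.SemiRec`): every Borel set of positive measure meets `P`, and for every Borel
graph of an injection, whose domain has positive measure and which moves every point to a point not
almost equal to it, some point of the graph has exactly one coordinate in the semifilter.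
A homeomorphism of the semifilter with its clopen subset of all members containing `0` extends, by
the argument of Lavrentiev, to such a Borel graph; hence it moves almost every point by a finite
set only. As the translations by finite sets preserve the measure, almost every point would be
mapped into a set of measure one half in a measure preserving way, which is impossible.
-/

open Set Filter Topology MeasureTheory
open scoped ENNReal
open Q175.Cells

namespace Pool.Agent.Results.MP_7a28e0_gt.NotStronglyHomogeneous

/-- A semifilter: a nonempty family of infinite subsets of the natural numbers (identified with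
their characteristic functions) which is closed under taking almost supersets. -/
structure IsSemifilter (S : Set (ℕ → Bool)) : Prop where
  nonempty : S.Nonempty
  infinite : ∀ x ∈ S, {n | x n = true}.Infinite
  up : ∀ x ∈ S, ∀ y : ℕ → Bool, {n | x n = true ∧ y n = false}.Finite → y ∈ S

/-- A space is strongly homogeneous if each of its nonempty clopen subsets is homeomorphic to the
whole space. -/
def StronglyHomogeneous (X : Type) [TopologicalSpace X] : Prop :=
  ∀ U : Set X, IsClopen U → U.Nonempty → Nonempty (U ≃ₜ X)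

theorem meas1 {K : Set (C × C)} (hK : IsClosed K) :
    MeasurableSet {q : C × C | ∀ q' ∈ K, q'.1 = q.1 → q'.2 = q.2} := by
  have h1 : {q : C × C | ∀ q' ∈ K, q'.1 = q.1 → q'.2 = q.2} =
      (⋃ n : ℕ, Prod.fst '' {r : (C × C) × (C × C) | r.2 ∈ K ∧ r.2.1 = r.1.1 ∧
        xor (r.2.2 n) (r.1.2 n) = true})ᶜ := by
    ext q
    rw [mem_compl_iff, mem_iUnion]
    constructor
    · rintro h ⟨n, r, ⟨h2, h3, h4⟩, rfl⟩
      rw [h _ h2 h3] at h4
      simp at h4
    · intro h q' hq' hqq
      by_contra hne
      obtain ⟨n, hn⟩ := Function.ne_iff.1 hne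
      refine h ⟨n, (q, q'), ⟨hq', hqq, ?_⟩, rfl⟩
      show xor (q'.2 n) (q.2 n) = true
      revert hn
      cases q'.2 n <;> cases q.2 n <;> simp
  rw [h1]
  refine (MeasurableSet.iUnion fun n => ?_).compl
  refine IsClosed.measurableSet (isClosedMap_fst_of_compactSpace _ ?_)
  have c1 : Continuous fun r : (C × C) × (C × C) => r.2.1 := by fun_prop
  have c2 : Continuous fun r : (C × C) × (C × C) => r.1.1 := by fun_prop
  have c3 : Continuous fun r : (C × C) × (C × C) => add r.2.2 r.1.2 n :=
    (continuous_apply n).comp (Q175.Cells.continuous_add.comp (by fun_prop :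
      Continuous fun r : (C × C) × (C × C) => (r.2.2, r.1.2)))
  exact (hK.preimage continuous_snd).inter ((isClosed_eq c1 c2).inter
    (isClosed_eq c3 continuous_const))

theorem meas2 {K : Set (C × C)} (hK : IsClosed K) :
    MeasurableSet {q : C × C | ∀ q' ∈ K, q'.2 = q.2 → q'.1 = q.1} := by
  have h1 := meas1 (K := Prod.swap ⁻¹' K) (hK.preimage continuous_swap)
  have h2 := h1.preimage (measurable_swap : Measurable (Prod.swap : C × C → C × C))
  convert h2 using 1
  ext q
  constructor
  · intro h q' hq' hqq
    exact h q'.swap hq' hqq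
  · intro h q' hq' hqq
    exact h q'.swap (by simpa using hq') hqq

theorem meas_sub : MeasurableSet {q : C × C | Sub q.1 q.2} := by
  have h1 : {q : C × C | Sub q.1 q.2} =
      ⋃ m : ℕ, ⋂ n : ℕ, {q | m ≤ n → ¬ (q.1 n = true ∧ q.2 n = false)} := by
    ext q
    simp only [mem_iUnion, mem_iInter, mem_ofPred_eq]
    constructor
    · intro h
      obtain ⟨m, hm⟩ := h.bddAbove
      refine ⟨m + 1, fun n hn hh => ?_⟩
      have := hm hh
      omega
    · rintro ⟨m, hm⟩
      refine (finite_lt_nat m).subset fun n hn => ?_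
      by_contra hlt
      exact hm n (not_lt.1 hlt) hn
  rw [h1]
  refine MeasurableSet.iUnion fun m => MeasurableSet.iInter fun n => ?_
  by_cases hmn : m ≤ n
  · have c1 : Continuous fun q : C × C => q.1 n := (continuous_apply n).comp continuous_fst
    have c2 : Continuous fun q : C × C => q.2 n := (continuous_apply n).comp continuous_snd
    have h2 : {q : C × C | m ≤ n → ¬ (q.1 n = true ∧ q.2 n = false)} =
        ({q | q.1 n = true} ∩ {q | q.2 n = false})ᶜ := by
      ext q
      simp [hmn]
    rw [h2]
    exact ((isClosed_eq c1 continuous_const).inter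
      (isClosed_eq c2 continuous_const)).measurableSet.compl
  · have h2 : {q : C × C | m ≤ n → ¬ (q.1 n = true ∧ q.2 n = false)} = univ := by
      ext q
      simp [hmn]
    rw [h2]
    exact MeasurableSet.univ

/-- The characteristic function of a finite set. -/
def ind (F : Finset ℕ) : C := fun n => decide (n ∈ F)

theorem exists_ind {x v : C} (h1 : Sub x v) (h2 : Sub v x) : ∃ F : Finset ℕ, v = add (ind F) x := by
  classical
  have hfin : {n | x n ≠ v n}.Finite := by
    refine (h1.union h2).subset fun n hn => ?_
    have hn' : x n ≠ v n := hn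
    show (x n = true ∧ v n = false) ∨ (v n = true ∧ x n = false)
    revert hn'
    cases x n <;> cases v n <;> simp
  refine ⟨hfin.toFinset, ?_⟩
  funext n
  show v n = xor (decide (n ∈ hfin.toFinset)) (x n)
  by_cases hn : x n = v n
  · have : n ∉ hfin.toFinset := by simpa using hn
    simp [this, hn]
  · have : n ∈ hfin.toFinset := by simpa using hn
    simp only [this, decide_true, Bool.true_bne]
    revert hn
    cases x n <;> cases v n <;> simp

theorem ind_inj {F F' : Finset ℕ} {x : C} (h : add (ind F) x = add (ind F') x) : F = F' := by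
  ext n
  have h1 : ind F n = ind F' n := by
    have h2 := congrFun h n
    simp only [add] at h2
    revert h2
    cases ind F n <;> cases ind F' n <;> cases x n <;> simp
  simpa [ind] using h1

theorem main {P N : Set C} (hPN : Inv P N) (hd : ∀ t, Done P N t) :
    ∃ S : Set (ℕ → Bool), IsSemifilter S ∧ ¬ StronglyHomogeneous S := by
  classical
  let S : Set C := {y | (∃ p ∈ P, Sub p y) ∨ {k | y k = false}.Finite}
  have hup : ∀ x ∈ S, ∀ y : C, Sub x y → y ∈ S := by
    rintro x (⟨p, hp, hpx⟩ | hx) y hxy
    · exact Or.inl ⟨p, hp, hpx.trans hxy⟩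
    · refine Or.inr ((hx.union hxy).subset fun k hk => ?_)
      rcases hk' : x k with _ | _
      · exact Or.inl hk'
      · exact Or.inr ⟨hk', hk⟩
  have hPS : ∀ p ∈ P, p ∈ S := fun p hp => Or.inl ⟨p, hp, Sub.refl p⟩
  have hNS : ∀ n ∈ N, n ∉ S := by
    rintro n hn (⟨p, hp, hpn⟩ | h)
    · exact hPN.pair p hp n hn hpn
    · exact hPN.infn n hn h
  have hsemi : IsSemifilter S := by
    refine ⟨⟨fun _ => true, Or.inr (by simp)⟩, ?_, hup⟩
    rintro x (⟨p, hp, hpx⟩ | hx)
    · intro hfin
      refine hPN.infp p hp ((hpx.union hfin).subset fun k hk => ?_)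
      rcases hk' : x k with _ | _
      · exact Or.inl ⟨hk, hk'⟩
      · exact Or.inr hk'
    · intro hfin
      refine infinite_univ ((hx.union hfin).subset fun k _ => ?_)
      rcases hk' : x k with _ | _
      · exact Or.inl hk'
      · exact Or.inr hk'
  refine ⟨S, hsemi, fun hstrong => ?_⟩
  have hUclopen : IsClopen {x : S | x.1 0 = true} := by
    have h1 : Continuous fun x : S => x.1 0 := (continuous_apply 0).comp continuous_subtype_val
    exact (isClopen_discrete ({true} : Set Bool)).preimage h1
  obtain ⟨e⟩ := hstrong {x : S | x.1 0 = true} hUclopen ⟨⟨fun _ => true, Or.inr (by simp)⟩, rfl⟩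
  -- the homeomorphism, as a map into the Cantor space
  let H : S → C := fun x => ((e.symm x).1 : S).1
  have hHc : Continuous H :=
    continuous_subtype_val.comp (continuous_subtype_val.comp e.symm.continuous)
  have hHS : ∀ x, H x ∈ S := fun x => (e.symm x).1.2
  have hH0 : ∀ x, H x 0 = true := fun x => (e.symm x).2
  let J : {x : S | x.1 0 = true} → S := fun v => e v
  have hJH : ∀ v : {x : S | x.1 0 = true}, H (e v) = v.1.1 := by
    intro v
    show ((e.symm (e v)).1 : S).1 = v.1.1
    rw [e.symm_apply_apply]
  let K : Set (C × C) := closure (range fun x : S => (x.1, H x))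
  have hK : IsClosed K := isClosed_closure
  have hKmem : ∀ x : S, (x.1, H x) ∈ K := fun x => subset_closure ⟨x, rfl⟩
  have hK0 : ∀ q ∈ K, q.2 0 = true := by
    have h1 : IsClosed {q : C × C | q.2 0 = true} :=
      isClosed_eq ((continuous_apply 0).comp continuous_snd) continuous_const
    intro q hq
    have h2 : K ⊆ {q : C × C | q.2 0 = true} := closure_minimal (by
      rintro _ ⟨x, rfl⟩
      exact hH0 x) h1
    exact h2 hq
  -- uniqueness over the members
  have hK1 : ∀ x : S, ∀ v, (x.1, v) ∈ K → v = H x := by
    intro x v hv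
    obtain ⟨u, hu, hlim⟩ := mem_closure_iff_seq_limit.1 hv
    choose s hs using hu
    have h1 : Tendsto (fun n => (s n).1) atTop (𝓝 x.1) := by
      have := (continuous_fst.tendsto _).comp hlim
      refine this.congr fun n => ?_
      show (u n).1 = (s n).1
      rw [← hs n]
    have h2 : Tendsto s atTop (𝓝 x) := tendsto_subtype_rng.2 h1
    have h3 : Tendsto (fun n => H (s n)) atTop (𝓝 (H x)) := (hHc.tendsto x).comp h2
    have h4 : Tendsto (fun n => H (s n)) atTop (𝓝 v) := by
      have := (continuous_snd.tendsto _).comp hlim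
      refine this.congr fun n => ?_
      show (u n).2 = H (s n)
      rw [← hs n]
    exact tendsto_nhds_unique h4 h3
  have hK2 : ∀ v : {x : S | x.1 0 = true}, ∀ x, (x, v.1.1) ∈ K → x = (e v).1 := by
    intro v x hx
    obtain ⟨u, hu, hlim⟩ := mem_closure_iff_seq_limit.1 hx
    choose s hs using hu
    have h1 : Tendsto (fun n => ((e.symm (s n)).1 : S).1) atTop (𝓝 v.1.1) := by
      have := (continuous_snd.tendsto _).comp hlim
      refine this.congr fun n => ?_
      show (u n).2 = H (s n)
      rw [← hs n]
    have h2 : Tendsto (fun n => e.symm (s n)) atTop (𝓝 v) :=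
      tendsto_subtype_rng.2 (tendsto_subtype_rng.2 h1)
    have h3 : Tendsto (fun n => (e (e.symm (s n))).1) atTop (𝓝 (e v).1) :=
      ((continuous_subtype_val.comp e.continuous).tendsto v).comp h2
    have h4 : Tendsto (fun n => (e (e.symm (s n))).1) atTop (𝓝 x) := by
      have := (continuous_fst.tendsto _).comp hlim
      refine this.congr fun n => ?_
      show (u n).1 = (e (e.symm (s n))).1
      rw [← hs n, e.apply_symm_apply]
    exact tendsto_nhds_unique h4 h3
  let D : Set (C × C) := K ∩ {q : C × C | ∀ q' ∈ K, q'.1 = q.1 → q'.2 = q.2} ∩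
    {q : C × C | ∀ q' ∈ K, q'.2 = q.2 → q'.1 = q.1}
  have hDm : MeasurableSet D := (hK.measurableSet.inter (meas1 hK)).inter (meas2 hK)
  have hDS : ∀ x : S, (x.1, H x) ∈ D := by
    intro x
    refine ⟨⟨hKmem x, ?_⟩, ?_⟩
    · rintro ⟨q1, q2⟩ hq h1
      simp only at h1
      subst h1
      exact hK1 x q2 hq
    · rintro ⟨q1, q2⟩ hq h1
      simp only at h1
      subst h1
      have h2 := hK2 (e.symm x) q1 hq
      rw [e.apply_symm_apply] at h2
      exact h2
  have hDiff : ∀ q ∈ D, q.1 ∈ S ↔ q.2 ∈ S := by
    intro q hq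
    constructor
    · intro h
      have := hq.1.2 _ (hKmem ⟨q.1, h⟩) rfl
      have h2 := hHS ⟨q.1, h⟩
      simp only at this
      rwa [this] at h2
    · intro h
      have h2 := hKmem (e ⟨⟨q.2, h⟩, hK0 q hq.1.1⟩)
      rw [hJH] at h2
      have h3 := hq.2 _ h2 rfl
      simp only at h3
      rw [← h3]
      exact (e ⟨⟨q.2, h⟩, hK0 q hq.1.1⟩).2
  have hD1 : InjOn Prod.fst D := fun q hq q' hq' h =>
    Prod.ext h (hq'.1.2 q hq.1.1 h)
  -- the set of points moved essentially
  let L : Set (C × C) := D \ ({q | Sub q.1 q.2} ∩ {q | Sub q.2 q.1})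
  have hsub2 : MeasurableSet {q : C × C | Sub q.2 q.1} :=
    meas_sub.preimage (measurable_swap : Measurable (Prod.swap : C × C → C × C))
  have hLm : MeasurableSet L := hDm.diff (meas_sub.inter hsub2)
  have hLinj : InjOn Prod.fst L := hD1.mono sdiff_subset
  have hB0 : μ (Prod.fst '' L) = 0 := by
    by_contra hne
    obtain ⟨q, hq, ⟨h1, p, hp, h2⟩ | ⟨h1, n, hn, h2⟩⟩ := hd (Sum.inl ⟨L, hLm⟩) hLinj
      (fun q hq => hq.2) (pos_iff_ne_zero.2 hne)
    · exact hNS _ h1 ((hDiff q hq.1).2 (Or.inl ⟨p, hp, h2⟩))
    · exact hNS n hn (hup _ ((hDiff q hq.1).1 (hPS _ h1)) n h2)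
  have hBm : MeasurableSet (Prod.fst '' L) :=
    hLm.image_of_continuousOn_injOn continuous_fst.continuousOn hLinj
  -- the pieces on which the homeomorphism is a translation
  let E : Finset ℕ → Set C := fun F => {x | (x, add (ind F) x) ∈ D}
  have hEm : ∀ F, MeasurableSet (E F) := by
    intro F
    have hc : Continuous fun x : C => (x, add (ind F) x) :=
      continuous_id.prodMk (Q175.Cells.continuous_add_left (ind F))
    exact hDm.preimage hc.measurable
  have hA : μ ((⋃ F, E F)ᶜ \ Prod.fst '' L) = 0 := by
    by_contra hne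
    have hAm : MeasurableSet ((⋃ F, E F)ᶜ \ Prod.fst '' L) :=
      (MeasurableSet.iUnion hEm).compl.diff hBm
    obtain ⟨y, hy, hyP⟩ := hd (Sum.inr ⟨_, hAm⟩) (pos_iff_ne_zero.2 hne)
    have hyS := hPS y hyP
    have h1 := hDS ⟨y, hyS⟩
    have h2 : Sub y (H ⟨y, hyS⟩) ∧ Sub (H ⟨y, hyS⟩) y := by
      by_contra hcon
      exact hy.2 ⟨_, ⟨h1, hcon⟩, rfl⟩
    obtain ⟨F, hF⟩ := exists_ind h2.1 h2.2
    refine hy.1 (mem_iUnion.2 ⟨F, ?_⟩)
    show (y, add (ind F) y) ∈ D
    rw [← hF]
    exact h1
  have hE1 : μ (⋃ F, E F) = 1 := by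
    have h1 : μ (⋃ F, E F)ᶜ = 0 := by
      rw [measure_sdiff_null hB0] at hA
      exact hA
    have h2 := prob_add_prob_compl (μ := μ) (MeasurableSet.iUnion hEm)
    rwa [h1, add_zero] at h2
  have hsum : μ (⋃ F, E F) ≤ μ (⋃ F, add (ind F) '' E F) := by
    have hdisj : Pairwise (Function.onFun Disjoint fun F => add (ind F) '' E F) := by
      intro F F' hFF
      rw [Function.onFun, Set.disjoint_left]
      rintro _ ⟨x, hx, rfl⟩ ⟨x', hx', hxx⟩
      apply hFF
      have h1 : x' = x := hx.2 _ hx'.1.1 hxx
      subst h1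
      exact (ind_inj hxx).symm
    have hm : ∀ F, MeasurableSet (add (ind F) '' E F) := by
      intro F
      rw [add_image]
      exact (hEm F).preimage (Q175.Cells.continuous_add_left _).measurable
    rw [measure_iUnion hdisj hm]
    refine (measure_iUnion_le _).trans (ENNReal.tsum_le_tsum fun F => ?_)
    rw [add_image, μ_add_preimage _ (hEm F)]
  have hle : μ (⋃ F, add (ind F) '' E F) ≤ (2 : ℝ≥0∞)⁻¹ := by
    have h1 : (⋃ F, add (ind F) '' E F) ⊆ {y | ∀ i ∈ ({0} : Finset ℕ), y i = (fun _ => true : C) i} := by
      refine iUnion_subset fun F => ?_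
      rintro _ ⟨x, hx, rfl⟩ i hi
      rw [Finset.mem_singleton] at hi
      subst hi
      exact hK0 _ hx.1.1
    refine (measure_mono h1).trans ?_
    rw [μ_cyl]
    simp
  have hfin := hsum.trans hle
  rw [hE1] at hfin
  have : (2 : ℝ≥0∞)⁻¹ < 1 := by
    rw [ENNReal.inv_lt_one]
    exact ENNReal.one_lt_two
  exact absurd (hfin.trans_lt this) (lt_irrefl _)

/-- There is a semifilter which is not strongly homogeneous. -/
theorem result : ∃ S : Set (ℕ → Bool), IsSemifilter S ∧ ¬ StronglyHomogeneous S := by
  obtain ⟨P, N, h1, h2⟩ := exists_PN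
  exact main h1 h2

end Pool.Agent.Results.MP_7a28e0_gt.NotStronglyHomogeneous
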